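import Pool.Agent.H68.OW.OW12

set_option autoImplicit false

namespace Pool.Agent.Results.MP_cf5e8f_an.NearIdentity

/-- For every `ε > 0` there is a univalent function `f(z) = z + a₂ z² + ...` on the unit disc with
`∑_{n ≥ 2} |aₙ| ≤ ε` whose boundary curve `f(𝕋)` has positive area. -/
theorem result (ε : ℝ) (hε : 0 < ε) : ∃ a : ℕ → ℂ, Summable (fun n => ‖a n‖) ∧ a 0 = 0 ∧ a 1 = 1 ∧
    (∑' n, ‖a (n + 2)‖ ≤ ε) ∧
    Set.InjOn (fun z : ℂ => ∑' n, a n * z ^ n) (Metric.ball (0 : ℂ) 1) ∧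
    0 < MeasureTheory.volume
      ((fun z : ℂ => ∑' n, a n * z ^ n) '' Metric.sphere (0 : ℂ) 1) := by
  have h1 : 0 < min 1 ε / 320 := div_pos (lt_min one_pos hε) (by norm_num)
  have h2 : min 1 ε ≤ 1 := min_le_left _ _
  letI S : Pool.Agent.H68.OW.Sc := ⟨min 1 ε / 320, h1, by linarith⟩
  have h3 : (320 : ℝ) * Pool.Agent.H68.OW.Sc.η = min 1 ε := by
    show (320 : ℝ) * (min 1 ε / 320) = min 1 ε
    ring
  obtain ⟨a, a1, a2, a3, a4, a5, a6⟩ := Pool.Agent.H68.OW.main (h3.le.trans h2)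
  exact ⟨a, a1, a2, a3, a4.trans (h3.le.trans (min_le_right _ _)), a5, a6⟩

end Pool.Agent.Results.MP_cf5e8f_an.NearIdentity
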